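import Pool.Agent.Helper82.BR.St3

set_option autoImplicit false

namespace Pool.Agent.Helper11.BR

open Pool.Agent.Helper82.BR

private lemma key (D : Finset ℂ) (hD : D.card ≤ 7) (L : List ℂ) (hL : L.Nodup)
    (hm : ∀ x ∈ L, x ∈ D) : L.length ≤ 7 := by
  classical
  have h1 : L.toFinset ⊆ D := by
    intro x hx
    exact hm x (List.mem_toFinset.1 hx)
  have h2 := Finset.card_le_card h1
  rw [List.toFinset_card_of_nodup hL] at h2
  omega

private lemma chain (D : Finset ℂ) (w Q R : ℂ) (hw : w ^ 2 = w - 1) (hD : D.card ≤ 7)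
    (m1 : 1 ∈ D) (mw : w ∈ D) (mw2 : w ^ 2 ∈ D) (mQ : Q ∈ D) (mQw : Q * w ∈ D) (mR : R ∈ D)
    (mRw : R * w ∈ D) (mQQ : Q ^ 2 ∈ D) (mQR : Q * R ∈ D) (r0 : R ≠ 0)
    (r1 : R ≠ 1) (r2 : R ≠ w) (r3 : R ≠ -1) (r4 : R ≠ -w) (n1 : Q ≠ R) (n2 : Q ≠ -R)
    (h : Q = w ^ 2 ∨ Q = - w ^ 2) : False := by
  have w0 : w ≠ 0 := by rintro rfl; norm_num at hw
  have w1 : w ≠ 1 := by rintro rfl; norm_num at hw
  rcases h with h | h
  · subst h
    have := key D hD [1, w, w ^ 2, w ^ 2 * w, (w ^ 2) ^ 2, R, R * w, w ^ 2 * R] (by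
      simp only [List.nodup_cons, List.mem_cons, List.not_mem_nil, not_or, or_false]
      refine ⟨⟨?_, ?_, ?_, ?_, ?_, ?_, ?_⟩, ⟨?_, ?_, ?_, ?_, ?_, ?_⟩, ⟨?_, ?_, ?_, ?_, ?_⟩, ⟨?_, ?_, ?_, ?_⟩, ⟨?_, ?_, ?_⟩, ⟨?_, ?_⟩, ?_, not_false, List.nodup_nil⟩ <;> grind)
      (by simp only [List.mem_cons, List.not_mem_nil, or_false]; rintro x (rfl | rfl | rfl | rfl | rfl | rfl | rfl | rfl) <;> assumption)
    simp at this
  · subst h
    have := key D hD [1, w, w ^ 2, -w ^ 2, (-w ^ 2) ^ 2, R, R * w, -w ^ 2 * R] (by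
      simp only [List.nodup_cons, List.mem_cons, List.not_mem_nil, not_or, or_false]
      refine ⟨⟨?_, ?_, ?_, ?_, ?_, ?_, ?_⟩, ⟨?_, ?_, ?_, ?_, ?_, ?_⟩, ⟨?_, ?_, ?_, ?_, ?_⟩, ⟨?_, ?_, ?_, ?_⟩, ⟨?_, ?_, ?_⟩, ⟨?_, ?_⟩, ?_, not_false, List.nodup_nil⟩ <;> grind)
      (by simp only [List.mem_cons, List.not_mem_nil, or_false]; rintro x (rfl | rfl | rfl | rfl | rfl | rfl | rfl | rfl) <;> assumption)
    simp at this

/-- case `R = Q w` -/
private lemma caseA (D : Finset ℂ) (w Q : ℂ) (hw : w ^ 2 = w - 1) (hD : D.card ≤ 7)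
    (m1 : 1 ∈ D) (mw : w ∈ D) (mw2 : w ^ 2 ∈ D) (mQ : Q ∈ D) (mQw : Q * w ∈ D)
    (mQw2 : Q * w ^ 2 ∈ D) (mQQ : Q ^ 2 ∈ D) (mQR : Q ^ 2 * w ∈ D) (q0 : Q ≠ 0)
    (q1 : Q ≠ 1) (q2 : Q ≠ w) (q3 : Q ≠ -1) (q4 : Q ≠ -w) (q5 : Q ≠ w ^ 2) (q6 : Q ≠ -w ^ 2) :
    Q ^ 2 = w ∨ Q ^ 2 * w = 1 := by
  have w0 : w ≠ 0 := by rintro rfl; norm_num at hw
  have w1 : w ≠ 1 := by rintro rfl; norm_num at hw
  by_contra hcon
  rw [not_or] at hcon
  obtain ⟨h1, h2⟩ := hcon
  have e1 : Q ^ 2 ≠ 1 := by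
    intro h
    have : (Q - 1) * (Q + 1) = 0 := by linear_combination h
    rcases mul_eq_zero.1 this with h | h
    · exact q1 (by linear_combination h)
    · exact q3 (by linear_combination h)
  have e2 : Q ^ 2 ≠ w ^ 2 := by
    intro h
    have : (Q - w) * (Q + w) = 0 := by linear_combination h
    rcases mul_eq_zero.1 this with h | h
    · exact q2 (by linear_combination h)
    · exact q4 (by linear_combination h)
  have := key D hD [1, w, w ^ 2, Q, Q * w, Q * w ^ 2, Q ^ 2, Q ^ 2 * w] (by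
      simp only [List.nodup_cons, List.mem_cons, List.not_mem_nil, not_or, or_false]
      refine ⟨⟨?_, ?_, ?_, ?_, ?_, ?_, ?_⟩, ⟨?_, ?_, ?_, ?_, ?_, ?_⟩, ⟨?_, ?_, ?_, ?_, ?_⟩, ⟨?_, ?_, ?_, ?_⟩, ⟨?_, ?_, ?_⟩, ⟨?_, ?_⟩, ?_, not_false, List.nodup_nil⟩ <;> grind)
      (by simp only [List.mem_cons, List.not_mem_nil, or_false]; rintro x (rfl | rfl | rfl | rfl | rfl | rfl | rfl | rfl) <;> assumption)
  simp at this

private lemma sixth (w x : ℂ) (hw : w ^ 2 = w - 1) (h : x ^ 3 = 1) : x = 1 ∨ x = w ^ 2 ∨ x = -w := by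
  have : (x - 1) * ((x - w ^ 2) * (x + w)) = 0 := by
    linear_combination h + (-(x - 1) * (x + w + 1)) * hw
  rcases mul_eq_zero.1 this with h | h
  · left; linear_combination h
  · rcases mul_eq_zero.1 h with h | h
    · right; left; linear_combination h
    · right; right; linear_combination h

private lemma caseB (D : Finset ℂ) (w Q R : ℂ) (hw : w ^ 2 = w - 1) (hD : D.card ≤ 7)
    (m1 : 1 ∈ D) (mw : w ∈ D) (mw2 : w ^ 2 ∈ D) (mQ : Q ∈ D) (mQw : Q * w ∈ D) (mR : R ∈ D)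
    (mRw : R * w ∈ D) (mQQ : Q ^ 2 ∈ D) (mQR : Q * R ∈ D) (mRR : R ^ 2 ∈ D) (q0 : Q ≠ 0) (r0 : R ≠ 0)
    (q1 : Q ≠ 1) (q2 : Q ≠ w) (q3 : Q ≠ -1) (q4 : Q ≠ -w) (q5 : Q ≠ w ^ 2) (q6 : Q ≠ -w ^ 2)
    (r1 : R ≠ 1) (r2 : R ≠ w) (r3 : R ≠ -1) (r4 : R ≠ -w) (r5 : R ≠ w ^ 2) (r6 : R ≠ -w ^ 2)
    (n1 : Q ≠ R) (n2 : Q ≠ -R) (n3 : R ≠ Q * w) (n4 : Q ≠ R * w) :
    (Q ^ 2 = R ∧ Q ^ 3 = w) ∨ (R ^ 2 = Q ∧ R ^ 3 = w) := by
  have w0 : w ≠ 0 := by rintro rfl; norm_num at hw
  have w1 : w ≠ 1 := by rintro rfl; norm_num at hw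
  have hnd : ([1, w, w ^ 2, Q, Q * w, R, R * w] : List ℂ).Nodup := by
    simp only [List.nodup_cons, List.mem_cons, List.not_mem_nil, not_or, or_false]
    refine ⟨⟨?_, ?_, ?_, ?_, ?_, ?_⟩, ⟨?_, ?_, ?_, ?_, ?_⟩, ⟨?_, ?_, ?_, ?_⟩, ⟨?_, ?_, ?_⟩, ⟨?_, ?_⟩, ?_, not_false, List.nodup_nil⟩ <;> grind
  have hmem : ∀ x ∈ D, x = 1 ∨ x = w ∨ x = w ^ 2 ∨ x = Q ∨ x = Q * w ∨ x = R ∨ x = R * w := by
    intro x hx
    by_contra hc
    have := key D hD (x :: [1, w, w ^ 2, Q, Q * w, R, R * w])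
      (List.nodup_cons.2 ⟨by simpa only [List.mem_cons, List.not_mem_nil, or_false] using hc, hnd⟩)
      (by
        simp only [List.mem_cons, List.not_mem_nil, or_false]
        rintro y (rfl | rfl | rfl | rfl | rfl | rfl | rfl | rfl) <;> assumption)
    simp at this
  have sq : ∀ x y : ℂ, x ^ 2 = y ^ 2 → x = y ∨ x = -y := fun x y h => sq_eq_sq_iff_eq_or_eq_neg.1 h
  have hQQ : Q ^ 2 = w ∨ Q ^ 2 = R ∨ Q ^ 2 = R * w := by
    rcases hmem _ mQQ with h | h | h | h | h | h | h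
    · rcases sq Q 1 (by rw [h]; ring) with h | h
      · exact absurd h q1
      · exact absurd h q3
    · exact Or.inl h
    · rcases sq Q w h with h | h
      · exact absurd h q2
      · exact absurd h q4
    · exact absurd (mul_left_cancel₀ q0 (by linear_combination h : Q * Q = Q * 1)) q1
    · exact absurd (mul_left_cancel₀ q0 (by linear_combination h : Q * Q = Q * w)) q2
    · exact Or.inr (Or.inl h)
    · exact Or.inr (Or.inr h)
  have hRR : R ^ 2 = w ∨ R ^ 2 = Q ∨ R ^ 2 = Q * w := by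
    rcases hmem _ mRR with h | h | h | h | h | h | h
    · rcases sq R 1 (by rw [h]; ring) with h | h
      · exact absurd h r1
      · exact absurd h r3
    · exact Or.inl h
    · rcases sq R w h with h | h
      · exact absurd h r2
      · exact absurd h r4
    · exact Or.inr (Or.inl h)
    · exact Or.inr (Or.inr h)
    · exact absurd (mul_left_cancel₀ r0 (by linear_combination h : R * R = R * 1)) r1
    · exact absurd (mul_left_cancel₀ r0 (by linear_combination h : R * R = R * w)) r2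
  have hQR : Q * R = 1 ∨ Q * R = w ∨ Q * R = w ^ 2 := by
    rcases hmem _ mQR with h | h | h | h | h | h | h
    · exact Or.inl h
    · exact Or.inr (Or.inl h)
    · exact Or.inr (Or.inr h)
    · exact absurd (mul_left_cancel₀ q0 (by linear_combination h : Q * R = Q * 1)) r1
    · exact absurd (mul_left_cancel₀ q0 (by linear_combination h : Q * R = Q * w)) r2
    · exact absurd (mul_left_cancel₀ r0 (by linear_combination h : R * Q = R * 1)) q1
    · exact absurd (mul_left_cancel₀ r0 (by linear_combination h : R * Q = R * w)) q2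
  rcases hQQ with a | a | a
  · rcases hRR with b | b | b
    · rcases sq Q R (by rw [a, b]) with h | h
      · exact absurd h n1
      · exact absurd h n2
    · exfalso
      rcases hQR with c | c | c <;> grind
    · exfalso
      rcases hQR with c | c | c <;> grind
  · rcases hRR with b | b | b
    · exfalso
      rcases hQR with c | c | c <;> grind
    · exfalso
      have h3 : Q ^ 3 = 1 := mul_left_cancel₀ q0 (by rw [← a] at b; linear_combination b)
      rcases sixth w Q hw h3 with h | h | h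
      · exact q1 h
      · exact q5 h
      · exact q4 h
    · left
      exact ⟨a, mul_left_cancel₀ q0 (by rw [← a] at b; linear_combination b)⟩
  · rcases hRR with b | b | b
    · exfalso
      rcases hQR with c | c | c <;> grind
    · right
      exact ⟨b, mul_left_cancel₀ r0 (by rw [← b] at a; linear_combination a)⟩
    · exfalso
      have h3 : (-Q) ^ 3 = 1 := by
        refine mul_left_cancel₀ q0 ?_
        have e1 : Q ^ 4 = (R * w) ^ 2 := by rw [← a]; ring
        linear_combination -e1 - w ^ 2 * b - Q * (w + 1) * hw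
      rcases sixth w (-Q) hw h3 with h | h | h
      · exact q3 (by linear_combination -h)
      · exact q6 (by linear_combination -h)
      · exact q2 (by linear_combination -h)

theorem hGP : StGP := by
  classical
  intro D w p q r hw hD hp hq hr hprod hneg hqp hqpw hrp hrpw hqr
  have w0 : w ≠ 0 := by rintro rfl; norm_num at hw
  have mp : p ∈ ({p, p * w, q, r} : Finset ℂ) := by simp
  have mpw : p * w ∈ ({p, p * w, q, r} : Finset ℂ) := by simp
  have mq : q ∈ ({p, p * w, q, r} : Finset ℂ) := by simp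
  have mr : r ∈ ({p, p * w, q, r} : Finset ℂ) := by simp
  obtain ⟨Q, hQ⟩ : ∃ Q, Q = q / p := ⟨_, rfl⟩
  obtain ⟨R, hR⟩ : ∃ R, R = r / p := ⟨_, rfl⟩
  have hq' : q = p * Q := by rw [hQ]; field_simp
  have hr' : r = p * R := by rw [hR]; field_simp
  have q0 : Q ≠ 0 := by rintro h; exact hq (by rw [hq', h, mul_zero])
  have r0 : R ≠ 0 := by rintro h; exact hr (by rw [hr', h, mul_zero])
  have key2 : ∀ x y z : ℂ, x * y ∈ D → z = x * y / p ^ 2 → z ∈ D.image (fun t => t / p ^ 2) := by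
    intro x y z h1 h2
    rw [h2]
    exact Finset.mem_image_of_mem _ h1
  have hD' : (D.image (fun t => t / p ^ 2)).card ≤ 7 := Finset.card_image_le.trans hD
  have m1 := key2 p p 1 (hprod _ mp _ mp) (by field_simp)
  have m2 := key2 p (p * w) w (hprod _ mp _ mpw) (by field_simp)
  have m3 := key2 (p * w) (p * w) (w ^ 2) (hprod _ mpw _ mpw) (by field_simp)
  have m4 := key2 p q Q (hprod _ mp _ mq) (by rw [hq']; field_simp)
  have m5 := key2 (p * w) q (Q * w) (hprod _ mpw _ mq) (by rw [hq']; field_simp)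
  have m6 := key2 p r R (hprod _ mp _ mr) (by rw [hr']; field_simp)
  have m7 := key2 (p * w) r (R * w) (hprod _ mpw _ mr) (by rw [hr']; field_simp)
  have m8 := key2 q q (Q ^ 2) (hprod _ mq _ mq) (by rw [hq']; field_simp)
  have m9 := key2 q r (Q * R) (hprod _ mq _ mr) (by rw [hq', hr']; field_simp)
  have m10 := key2 r r (R ^ 2) (hprod _ mr _ mr) (by rw [hr']; field_simp)
  have q1 : Q ≠ 1 := by rintro h; exact hqp (by rw [hq', h, mul_one])
  have q2 : Q ≠ w := by rintro h; exact hqpw (by rw [hq', h])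
  have q3 : Q ≠ -1 := by
    rintro h
    refine hneg _ mp ?_
    have : -p = q := by rw [hq', h]; ring
    rw [this]; exact mq
  have q4 : Q ≠ -w := by
    rintro h
    refine hneg _ mpw ?_
    have : -(p * w) = q := by rw [hq', h]; ring
    rw [this]; exact mq
  have r1 : R ≠ 1 := by rintro h; exact hrp (by rw [hr', h, mul_one])
  have r2 : R ≠ w := by rintro h; exact hrpw (by rw [hr', h])
  have r3 : R ≠ -1 := by
    rintro h
    refine hneg _ mp ?_
    have : -p = r := by rw [hr', h]; ring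
    rw [this]; exact mr
  have r4 : R ≠ -w := by
    rintro h
    refine hneg _ mpw ?_
    have : -(p * w) = r := by rw [hr', h]; ring
    rw [this]; exact mr
  have n1 : Q ≠ R := by rintro h; exact hqr (by rw [hq', hr', h])
  have n2 : Q ≠ -R := by
    rintro h
    refine hneg _ mr ?_
    have : -r = q := by rw [hq', hr', h]; ring
    rw [this]; exact mq
  by_cases c1 : Q = w ^ 2 ∨ Q = -w ^ 2
  · exact (chain _ w Q R hw hD' m1 m2 m3 m4 m5 m6 m7 m8 m9 r0 r1 r2 r3 r4 n1 n2 c1).elim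
  by_cases c2 : R = w ^ 2 ∨ R = -w ^ 2
  · exact (chain _ w R Q hw hD' m1 m2 m3 m6 m7 m4 m5 m10 (by rw [mul_comm]; exact m9) q0 q1 q2 q3 q4
      (Ne.symm n1) (by rintro h; exact n2 (by rw [h, neg_neg])) c2).elim
  rw [not_or] at c1 c2
  by_cases c3 : R = Q * w
  · subst c3
    rcases caseA _ w Q hw hD' m1 m2 m3 m4 m5 (by convert m7 using 1; ring) m8
      (by convert m9 using 1; ring) q0 q1 q2 q3 q4 c1.1 c1.2 with h | h
    · refine ⟨p, Q, mp, ?_, ?_, ?_, Or.inl h⟩
      · rw [← hq']; exact mq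
      · rw [h]; exact mpw
      · have : p * Q ^ 3 = r := by rw [hr']; linear_combination p * Q * h
        rw [this]; exact mr
    · refine ⟨q, Q⁻¹, mq, ?_, ?_, ?_, Or.inl ?_⟩
      · have : q * Q⁻¹ = p := by rw [hq']; field_simp
        rw [this]; exact mp
      · have : q * Q⁻¹ ^ 2 = r := by
          rw [hq', hr']
          field_simp
          linear_combination -h
        rw [this]; exact mr
      · have : q * Q⁻¹ ^ 3 = p * w := by
          rw [hq']
          field_simp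
          linear_combination -h
        rw [this]; exact mpw
      · field_simp
        linear_combination -h
  by_cases c4 : Q = R * w
  · subst c4
    rcases caseA _ w R hw hD' m1 m2 m3 m6 m7 (by convert m5 using 1; ring) m10
      (by convert m9 using 1; ring) r0 r1 r2 r3 r4 c2.1 c2.2 with h | h
    · refine ⟨p, R, mp, ?_, ?_, ?_, Or.inl h⟩
      · rw [← hr']; exact mr
      · rw [h]; exact mpw
      · have : p * R ^ 3 = q := by rw [hq']; linear_combination p * R * h
        rw [this]; exact mq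
    · refine ⟨r, R⁻¹, mr, ?_, ?_, ?_, Or.inl ?_⟩
      · have : r * R⁻¹ = p := by rw [hr']; field_simp
        rw [this]; exact mp
      · have : r * R⁻¹ ^ 2 = q := by
          rw [hq', hr']
          field_simp
          linear_combination -h
        rw [this]; exact mq
      · have : r * R⁻¹ ^ 3 = p * w := by
          rw [hr']
          field_simp
          linear_combination -h
        rw [this]; exact mpw
      · field_simp
        linear_combination -h
  rcases caseB _ w Q R hw hD' m1 m2 m3 m4 m5 m6 m7 m8 m9 m10 q0 r0 q1 q2 q3 q4 c1.1 c1.2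
    r1 r2 r3 r4 c2.1 c2.2 n1 n2 c3 c4 with ⟨h1, h2⟩ | ⟨h1, h2⟩
  · refine ⟨p, Q, mp, ?_, ?_, ?_, Or.inr h2⟩
    · rw [← hq']; exact mq
    · rw [h1, ← hr']; exact mr
    · rw [h2]; exact mpw
  · refine ⟨p, R, mp, ?_, ?_, ?_, Or.inr h2⟩
    · rw [← hr']; exact mr
    · rw [h1, ← hq']; exact mq
    · rw [h2]; exact mpw

end Pool.Agent.Helper11.BR
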